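import Pool.Agent.Helper16_XQ.StmtG
import Pool.Agent.Helper69_AEU.Per

/-!
helper40, squad XQ (MP_5b0138_an), module CL4: special bodies with four contacts which cannot be
placed.
-/

set_option autoImplicit false

namespace Pool.Agent.XQ

open Complex Pool.Agent.H62T
open Pool.Agent.H16F (Sublin)
open Pool.Agent.AEU

namespace H40

/-- a body of minimal length touching the sides it touches is the hull of every system of contact
points -/
theorem minF_hull {X : Finset HP} {h : ℂ → ℝ} (hs : Sublin h) (hf' : Fits X h) (hm : MinF X h)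
    {m : ℕ} (x : Fin (m + 1) → ℂ) (hx : ∀ i, In (x i) h)
    (hc : ∀ s ∈ touch X h, ∃ i, ip s.1 (x i) = s.2) : h = hf x := by
  obtain ⟨h1, h2, h3, h4, h5, h6⟩ := H69.hul m x
  have hle : ∀ w, hf x w ≤ h w := h4 h hx
  have hfit : Fits X (hf x) := fun s hs' => (hle s.1).trans (hf' s hs')
  have htou : touch X h ⊆ touch X (hf x) := by
    intro s hs'
    obtain ⟨i, hi⟩ := hc s hs'
    have hsX : s ∈ X := (Finset.mem_filter.1 hs').1
    refine Finset.mem_filter.2 ⟨hsX, le_antisymm (hfit s hsX) ?_⟩
    rw [← hi]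
    exact h2 i s.1
  have hl := hm (hf x) h1 hfit htou
  exact ((H69.lamS.2.1 (hf x) h h1 hs hle).2 hl).symm

/-- `v` is a vertex strictly between two points of the closed polygon -/
theorem between_false {X : Finset HP} {L : ℝ} {j : HP}
    (hext : ∀ v, Vx X v → ∀ a ∈ Cl X, ∀ b ∈ Cl X, v ∈ openSegment ℝ a b → a = v ∧ b = v)
    (hj : ‖j.1‖ = 1) {a b c : ℂ} (ha : Vx X a) (hb : Vx X b) (hc : Vx X c)
    (aC : a ∈ Cl X) (bC : b ∈ Cl X) (cC : c ∈ Cl X)
    (ea : ip j.1 a = L) (eb : ip j.1 b = L) (ec : ip j.1 c = L) (ab : a ≠ b) (ac : a ≠ c)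
    (bc : b ≠ c) : False := by
  -- the three points are collinear
  have key : ∀ p q r : ℂ, Vx X q → p ∈ Cl X → r ∈ Cl X → p ≠ q → q ≠ r → Wbtw ℝ p q r →
      False := by
    intro p q r hq pC rC pq qr hw
    have hs : Sbtw ℝ p q r := ⟨hw, pq.symm, qr⟩
    have hm : q ∈ openSegment ℝ p r := by
      rw [openSegment_eq_image_lineMap]
      obtain ⟨t, ht, rfl⟩ := (sbtw_iff_mem_image_Ioo_and_ne.1 hs).1
      exact ⟨t, ht, rfl⟩
    exact pq (hext q hq p pC r rC hm).1
  have hcol : Collinear ℝ {a, b, c} := by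
    rw [collinear_iff_of_mem (p₀ := a) (by simp)]
    have haux : ∀ z : ℂ, ip j.1 z = L → ∃ r : ℝ, z = r • (I * j.1) +ᵥ a := by
      intro z hz
      have h1 : ip j.1 (z - a) = 0 := by rw [H69.ip_sub_right, hz, ea, sub_self]
      -- `z - a` is a real multiple of `I j`
      have h2 : (z - a) = ((((starRingEnd ℂ) j.1 * (z - a)).im : ℝ) : ℂ) * (I * j.1) := by
        have h3 : ((starRingEnd ℂ) j.1 * (z - a)).re = 0 := by
          have : ip j.1 (z - a) = ((starRingEnd ℂ) j.1 * (z - a)).re := by
            simp [ip]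
          rw [← this, h1]
        have h4 : (starRingEnd ℂ) j.1 * (z - a)
            = ((((starRingEnd ℂ) j.1 * (z - a)).im : ℝ) : ℂ) * I := by
          apply Complex.ext <;> simp [h3]
        have h5 : j.1 * (starRingEnd ℂ) j.1 = 1 := by
          rw [Complex.mul_conj, Complex.normSq_eq_norm_sq, hj]; norm_num
        calc z - a = (j.1 * (starRingEnd ℂ) j.1) * (z - a) := by rw [h5, one_mul]
          _ = j.1 * ((starRingEnd ℂ) j.1 * (z - a)) := by ring
          _ = j.1 * (((((starRingEnd ℂ) j.1 * (z - a)).im : ℝ) : ℂ) * I) := by rw [← h4]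
          _ = _ := by ring
      refine ⟨((starRingEnd ℂ) j.1 * (z - a)).im, ?_⟩
      rw [vadd_eq_add, Complex.real_smul, ← h2]
      ring
    refine ⟨I * j.1, ?_⟩
    intro p hp
    simp only [Set.mem_insert_iff, Set.mem_singleton_iff] at hp
    rcases hp with rfl | rfl | rfl
    · exact haux _ ea
    · exact haux _ eb
    · exact haux _ ec
  rcases hcol.wbtw_or_wbtw_or_wbtw with h | h | h
  · exact key a b c hb aC cC ab bc h
  · exact key b c a hc bC aC bc ac.symm h
  · exact key c a b ha cC bC ac.symm ab h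

theorem card4 {S : Finset HP} (h : S.card = 4) {i j : HP} (hi : i ∈ S) (hj : j ∈ S)
    (ij : i ≠ j) : ∃ q r, Ne4 i j q r ∧ S = {i, j, q, r} := by
  classical
  have h1 : (S.erase i).card = 3 := by rw [Finset.card_erase_of_mem hi, h]
  have h2 : ((S.erase i).erase j).card = 2 := by
    rw [Finset.card_erase_of_mem (Finset.mem_erase.2 ⟨ij.symm, hj⟩), h1]
  obtain ⟨q, r, qr, e⟩ := Finset.card_eq_two.1 h2
  have hq : q ∈ (S.erase i).erase j := by rw [e]; simp
  have hr : r ∈ (S.erase i).erase j := by rw [e]; simp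
  simp only [Finset.mem_erase] at hq hr
  refine ⟨q, r, ⟨ij, hq.2.1.symm, hr.2.1.symm, hq.1.symm, hr.1.symm, qr⟩, ?_⟩
  have e1 : S = insert i (S.erase i) := (Finset.insert_erase hi).symm
  have e2 : S.erase i = insert j ((S.erase i).erase j) :=
    (Finset.insert_erase (Finset.mem_erase.2 ⟨ij.symm, hj⟩)).symm
  rw [e1, e2, e]

end H40

open H40

/-- CL4 -/
theorem cl4 (hvxx : VxxStatement) (hlcx : LcxStatement) : Cl4Statement := by
  intro X Y L env h hu hL hc4
  obtain ⟨hsp, hun⟩ := hu
  obtain ⟨hs, hfit, h3, hsv⟩ := hsp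
  obtain ⟨V1, V2, V3, V4, V5, V6, V7, V8, V9, V10, V11⟩ := hvxx X env.pg
  -- minimality
  have hmin : MinF X h := by
    intro h' hs' hf' ht
    by_contra hlt
    push Not at hlt
    have hint : touch X h' ∩ touch X h = touch X h := Finset.inter_eq_right.2 ht
    obtain ⟨g, -, h2, h3'⟩ := hlcx X Y L env h' h hs' hs hf' hfit (hL ▸ hlt) hL.le
      (by rw [hint, hc4]; norm_num) (Or.inr (by rw [hint, hc4]))
    rw [hint] at h3'
    exact hun ⟨g, h2, h3'⟩
  refine ⟨hmin, ?_⟩
  have hTX : ∀ {s}, s ∈ touch X h → s ∈ X := fun hs' => (Finset.mem_filter.1 hs').1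
  by_cases hv : ∃ v, Vx X v ∧ In v h
  · obtain ⟨v, ⟨i, j, vij⟩, vh⟩ := hv
    obtain ⟨hi, hj⟩ := V8 i j v h vij hfit vh
    obtain ⟨q, r, ne, eF⟩ := card4 hc4 hi hj vij.ne
    have hq : q ∈ touch X h := by rw [eF]; simp
    have hr : r ∈ touch X h := by rw [eF]; simp
    obtain ⟨x, xh, xC, xq⟩ := V11 h hs hfit q hq
    obtain ⟨y, yh, yC, yr⟩ := V11 h hs hfit r hr
    right
    -- a vertex of a contact point
    have hvert : ∀ (p : ℂ) (s : HP), In p h → p ∈ Cl X → s ∈ touch X h → ip s.1 p = s.2 →
        Vx X p → ∃ u ∈ touch X h, u ≠ s ∧ ip u.1 p = u.2 := by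
      intro p s ph pC hs' hsp hpv
      obtain ⟨a, b, hab⟩ := hpv
      obtain ⟨ha, hb⟩ := V8 a b p h hab hfit ph
      by_cases has : a = s
      · exact ⟨b, hb, fun hbs => hab.ne (has.trans hbs.symm), hab.on₂⟩
      · exact ⟨a, ha, has, hab.on₁⟩
    -- the main argument, in terms of the side of the vertex
    have main : ∀ i j q r : HP, ∀ x y : ℂ, VxOf X i j v → Ne4 i j q r →
        touch X h = {i, j, q, r} → In x h → In y h → x ∈ Cl X → y ∈ Cl X → ip q.1 x = q.2 →
        ip r.1 y = r.2 → ip j.1 x = j.2 →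
        (∃ i j k l v w, Sh3 X h i j k l v w) ∨ ∃ i j k s v w x, Sh4 X h i j k s v w x := by
      intro i j q r x y vij ne eF xh yh xC yC xq yr xj
      obtain ⟨n1, n2, n3, n4, n5, n6⟩ := ne
      have hi : i ∈ touch X h := by rw [eF]; simp
      have hj : j ∈ touch X h := by rw [eF]; simp
      have hq : q ∈ touch X h := by rw [eF]; simp
      have hr : r ∈ touch X h := by rw [eF]; simp
      have vjq : VxOf X j q x := ⟨xC, hTX hj, hTX hq, n4, xj, xq⟩
      by_cases hyv : Vx X y
      · obtain ⟨u, hu, hur, huy⟩ := hvert y r yh yC hr yr hyv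
        rw [eF] at hu
        simp only [Finset.mem_insert, Finset.mem_singleton] at hu
        rcases hu with rfl | rfl | rfl | rfl
        · -- `y` on `i` and `r`
          left
          refine ⟨j, q, u, r, x, y, vjq, ⟨yC, hTX hi, hTX hr, n3, huy, yr⟩,
            ⟨n4, n1.symm, n5, n2.symm, n6, n3⟩, ?_⟩
          apply minF_hull hs hfit hmin ![x, y]
          · intro k; fin_cases k
            · exact xh
            · exact yh
          · intro s hs'
            rw [eF] at hs'
            simp only [Finset.mem_insert, Finset.mem_singleton] at hs'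
            rcases hs' with rfl | rfl | rfl | rfl
            · exact ⟨1, huy⟩
            · exact ⟨0, xj⟩
            · exact ⟨0, xq⟩
            · exact ⟨1, yr⟩
        · -- `y` on `j` and `r`: three vertices on `j`
          exfalso
          have hvq : ip q.1 v < q.2 := V2 i u v vij q (hTX hq) n2.symm n4.symm
          have hvr : ip r.1 v < r.2 := V2 i u v vij r (hTX hr) n3.symm n5.symm
          have hxr : ip r.1 x < r.2 := V2 u q x vjq r (hTX hr) n5.symm n6.symm
          refine between_false V3 (env.pg.unit u (hTX hj)) ⟨i, u, vij⟩ ⟨u, q, vjq⟩ hyv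
            vij.cl xC yC vij.on₂ xj huy ?_ ?_ ?_
          · rintro rfl; exact hvq.ne xq
          · rintro rfl; exact hvr.ne yr
          · rintro rfl; exact hxr.ne yr
        · -- `y` on `q` and `r`
          left
          refine ⟨i, j, u, r, v, y, vij, ⟨yC, hTX hq, hTX hr, n6, huy, yr⟩,
            ⟨n1, n2, n3, n4, n5, n6⟩, ?_⟩
          apply minF_hull hs hfit hmin ![v, y]
          · intro k; fin_cases k
            · exact vh
            · exact yh
          · intro s hs'
            rw [eF] at hs'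
            simp only [Finset.mem_insert, Finset.mem_singleton] at hs'
            rcases hs' with rfl | rfl | rfl | rfl
            · exact ⟨0, vij.on₁⟩
            · exact ⟨0, vij.on₂⟩
            · exact ⟨1, huy⟩
            · exact ⟨1, yr⟩
        · exact absurd rfl hur
      · right
        refine ⟨i, j, q, r, v, x, y, vij, vjq, hTX hr, ⟨n1, n2, n3, n4, n5, n6⟩, yr, ?_, ?_⟩
        · exact V6 y yC r (hTX hr) yr hyv
        · apply minF_hull hs hfit hmin ![v, x, y]
          · intro k; fin_cases k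
            · exact vh
            · exact xh
            · exact yh
          · intro s hs'
            rw [eF] at hs'
            simp only [Finset.mem_insert, Finset.mem_singleton] at hs'
            rcases hs' with rfl | rfl | rfl | rfl
            · exact ⟨0, vij.on₁⟩
            · exact ⟨0, vij.on₂⟩
            · exact ⟨1, xq⟩
            · exact ⟨2, yr⟩
    have eF2 : touch X h = {j, i, q, r} := by rw [eF]; ext s; simp; tauto
    have eF3 : touch X h = {i, j, r, q} := by rw [eF]; ext s; simp; tauto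
    have eF4 : touch X h = {j, i, r, q} := by rw [eF]; ext s; simp; tauto
    obtain ⟨n1, n2, n3, n4, n5, n6⟩ := ne
    have vji : VxOf X j i v := ⟨vij.cl, vij.mem₂, vij.mem₁, vij.ne.symm, vij.on₂, vij.on₁⟩
    -- both points on two of `q`, `r`: a diagonal
    have diag : ∀ q r : HP, ∀ x : ℂ, Ne4 i j q r → touch X h = {i, j, q, r} → In x h →
        x ∈ Cl X → ip q.1 x = q.2 → ip r.1 x = r.2 → ∃ i j k l v w, Sh3 X h i j k l v w := by
      intro q r x ne eF xh xC xq xr
      have hq : q ∈ touch X h := by rw [eF]; simp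
      have hr : r ∈ touch X h := by rw [eF]; simp
      refine ⟨i, j, q, r, v, x, vij, ⟨xC, hTX hq, hTX hr, ne.2.2.2.2.2, xq, xr⟩, ne, ?_⟩
      apply minF_hull hs hfit hmin ![v, x]
      · intro k; fin_cases k
        · exact vh
        · exact xh
      · intro s hs'
        rw [eF] at hs'
        simp only [Finset.mem_insert, Finset.mem_singleton] at hs'
        rcases hs' with rfl | rfl | rfl | rfl
        · exact ⟨0, vij.on₁⟩
        · exact ⟨0, vij.on₂⟩
        · exact ⟨1, xq⟩
        · exact ⟨1, xr⟩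
    by_cases hxv : Vx X x
    · right
      obtain ⟨u, hu, huq, hux⟩ := hvert x q xh xC hq xq hxv
      rw [eF] at hu
      simp only [Finset.mem_insert, Finset.mem_singleton] at hu
      rcases hu with rfl | rfl | rfl | rfl
      · exact main j u q r x y vji ⟨n1.symm, n4, n5, n2, n3, n6⟩ eF2 xh yh xC yC xq yr hux
      · exact main i u q r x y vij ⟨n1, n2, n3, n4, n5, n6⟩ eF xh yh xC yC xq yr hux
      · exact absurd rfl huq
      · exact Or.inl (diag q u x ⟨n1, n2, n3, n4, n5, n6⟩ eF xh xC xq hux)
    · by_cases hyv : Vx X y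
      · right
        obtain ⟨u, hu, hur, huy⟩ := hvert y r yh yC hr yr hyv
        rw [eF] at hu
        simp only [Finset.mem_insert, Finset.mem_singleton] at hu
        rcases hu with rfl | rfl | rfl | rfl
        · exact main j u r q y x vji ⟨n1.symm, n5, n4, n3, n2, n6.symm⟩ eF4 yh xh yC xC yr xq huy
        · exact main i u r q y x vij ⟨n1, n3, n2, n5, n4, n6.symm⟩ eF3 yh xh yC xC yr xq huy
        · exact Or.inl (diag u r y ⟨n1, n2, n3, n4, n5, n6⟩ eF yh yC huy yr)
        · exact absurd rfl hur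
      · left
        refine ⟨i, j, q, r, v, x, y, vij, hTX hq, hTX hr, ⟨n1, n2, n3, n4, n5, n6⟩, xq, yr,
          V6 x xC q (hTX hq) xq hxv, V6 y yC r (hTX hr) yr hyv, ?_⟩
        apply minF_hull hs hfit hmin ![v, x, y]
        · intro k; fin_cases k
          · exact vh
          · exact xh
          · exact yh
        · intro s hs'
          rw [eF] at hs'
          simp only [Finset.mem_insert, Finset.mem_singleton] at hs'
          rcases hs' with rfl | rfl | rfl | rfl
          · exact ⟨0, vij.on₁⟩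
          · exact ⟨0, vij.on₂⟩
          · exact ⟨1, xq⟩
          · exact ⟨2, yr⟩
  · left
    have hv' : ∀ v, Vx X v → ¬ In v h := fun v h1 h2 => hv ⟨v, h1, h2⟩
    have e := (Finset.equivFinOfCardEq hc4).symm
    have hcp : ∀ k : Fin 4, ∃ x, In x h ∧ x ∈ Cl X ∧ ip (e k : HP).1 x = (e k : HP).2 :=
      fun k => V11 h hs hfit (e k) (e k).2
    choose x xh xC xe using hcp
    refine ⟨x, fun k => (e k : HP), ⟨?_, fun k => hTX (e k).2, xe, ?_, ?_⟩, hv'⟩
    · intro a b hab
      exact e.injective (Subtype.ext hab)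
    · intro k t ht htk
      exact V6 (x k) (xC k) (e k) (hTX (e k).2) (xe k) (fun hvx => hv' _ hvx (xh k)) t ht htk
    · apply minF_hull hs hfit hmin x xh
      intro s hs'
      refine ⟨e.symm ⟨s, hs'⟩, ?_⟩
      have := xe (e.symm ⟨s, hs'⟩)
      rwa [Equiv.apply_symm_apply] at this

end Pool.Agent.XQ
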