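import Pool.Agent.Helper40_XQ.CL4
import Pool.Agent.Helper72_AEU.ACT
import Pool.Agent.Helper40_AEU.Ell

/-!
helper40, squad XQ (MP_5b0138_an), module XE: no bodies of type E in `Q`.
-/

set_option autoImplicit false

namespace Pool.Agent.XQ

open Complex Pool.Agent.H62T
open Pool.Agent.H16F (Sublin)
open Pool.Agent.AEU

namespace H40

theorem mv_inj (g : Iso2) {s t : HP} (h : mv g s = mv g t) : s = t := by
  obtain ⟨h1, h2, -⟩ := H72.act
  have e : mv g⁻¹ (mv g s) = mv g⁻¹ (mv g t) := by rw [h]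
  rw [← h1, ← h1, inv_mul_cancel, h2, h2] at e
  exact e

/-- the two isometries of type E exchange the sides `i` and `j`; contradiction with the flip
conditions for a ghost of `P` -/
theorem flip_falseX (hunx : UnxStatement) {Q P : Finset HP} (hQu : ∀ s ∈ Q, ‖s.1‖ = 1)
    (hP : GenX P) {i j q r : HP} {g g' : Iso2}
    (iQ : i ∈ Q) (jQ : j ∈ Q) (qQ : q ∈ Q) (rQ : r ∈ Q) (ij : i ≠ j) (qr : q ≠ r) (qi : q ≠ i)
    (qj : q ≠ j) (ri : r ≠ i) (rj : r ≠ j) (gi : mv g i ∈ P) (gj : mv g j ∈ P)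
    (gq : mv g q ∈ P) (gi' : mv g' i ∈ P) (gj' : mv g' j ∈ P) (gr' : mv g' r ∈ P) (gne : g ≠ g')
    (hac : Acute {i, q, r}) {a b c : HP} (habc : Tri P a b c)
    (hl : ell3 a b c = ell3 i q r) : False := by
  obtain ⟨h1, h2, -, -, -, -, -, hip, -⟩ := H72.act
  obtain ⟨-, hu⟩ := hunx
  obtain ⟨-, -, he, -⟩ := Pool.Agent.AEU.H40.ell H72.act
  rcases (hu Q P hQu hP.gen.pg hP.gen.g1 g g').1 i iQ j jQ ij gi gj gi' gj' with hgg | ⟨e1, e2⟩
  · exact gne hgg
  have f1 : ∀ s, mv (g * g'⁻¹) (mv g' s) = mv g s := by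
    intro s
    rw [← h1, mul_assoc, inv_mul_cancel, mul_one]
  have T1 : Tri P (mv g i) (mv g j) (mv g q) :=
    ⟨gi, gj, gq, fun h => ij (mv_inj g h), fun h => qi (mv_inj g h).symm,
      fun h => qj (mv_inj g h).symm⟩
  have T2 : Tri P (mv g i) (mv g j) (mv g' r) :=
    ⟨gi, gj, gr', fun h => ij (mv_inj g h),
      fun h => rj (mv_inj g' (e1.symm.trans h)).symm,
      fun h => ri (mv_inj g' (e2.symm.trans h)).symm⟩
  have hlast : ell3 (mv g i) (mv g q) (mv g r) = ell3 a b c := by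
    rw [hl]
    have m1 : i ∈ ({i, q, r} : Finset HP) := by simp
    have m2 : q ∈ ({i, q, r} : Finset HP) := by simp
    have m3 : r ∈ ({i, q, r} : Finset HP) := by simp
    exact he g i q r (hQu i iQ) (hQu q qQ) (hQu r rQ)
      (hac i m1 q m2 qi.symm) (hac q m2 r m3 qr) (hac r m3 i m1 ri)
  by_cases hqr' : mv g q = mv g' r
  · apply hP.flipq (mv g i) (mv g j) (mv g q) a b c T1 habc (g * g'⁻¹) (by rw [e1, f1])
      (by rw [e2, f1])
    have : mv (g * g'⁻¹) (mv g q) = mv g r := by rw [hqr', f1]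
    rw [this, hlast]
  · have hfl := hP.gen.g2.flip (mv g i) (mv g j) (mv g q) (mv g' r) a b c T1 T2 hqr' habc
      (g * g'⁻¹) (by rw [e1, f1]) (by rw [e2, f1])
    apply hfl
    rw [f1, hlast]

/-- points of the closed polygon -/
theorem mem_cl {X : Finset HP} {x : ℂ} {q : HP} (xq : ip q.1 x = q.2)
    (xs : ∀ s ∈ X, s ≠ q → ip s.1 x < s.2) : x ∈ Cl X := by
  intro s hs
  by_cases h : s = q
  · subst h; exact xq.le
  · exact (xs s hs h).le

end H40

open H40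

/-- XE -/
theorem xe (hvxx : VxxStatement) (hlcx : LcxStatement) (hslx : SlxStatement)
    (hunx : UnxStatement) (hk4x : K4xStatement) (hghx : GhxStatement) (hplc : PlcStatement) :
    XeStatement := by
  classical
  intro P Q L env hP hgc h i j q r v x y hE hu hmin hL
  obtain ⟨vij, qQ, rQ, ⟨n1, n2, n3, n4, n5, n6⟩, xq, yr, xs, ys, body⟩ := hE
  obtain ⟨hsp, hun⟩ := hu
  obtain ⟨V1, V2, V3, V4, V5, V6, V7, V8, V9, V10, V11⟩ := hvxx Q env.pg
  have iQ := vij.mem₁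
  have jQ := vij.mem₂
  have xC : x ∈ Cl Q := mem_cl xq xs
  have yC : y ∈ Cl Q := mem_cl yr ys
  have vC : v ∈ Cl Q := vij.cl
  have hQu := env.pg.unit
  have hvr : ip r.1 v < r.2 := V2 i j v vij r rQ n3.symm n5.symm
  have hvq : ip q.1 v < q.2 := V2 i j v vij q qQ n2.symm n4.symm
  have hxr : ip r.1 x < r.2 := xs r rQ n6.symm
  have hyq : ip q.1 y < q.2 := ys q qQ n6
  have xv : x ≠ v := by rintro rfl; exact hvq.ne xq
  have yv : y ≠ v := by rintro rfl; exact hvr.ne yr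
  have hsub := hsp.sub
  have hfit := hsp.fits
  have hmix := H69.mixS Q
  have hp3 := H69.per.2.1
  -- points in `h`
  have hv : In v h := by rw [body]; exact (H69.hul 2 ![v, x, y]).2.1 0
  have hx : In x h := by rw [body]; exact (H69.hul 2 ![v, x, y]).2.1 1
  have hy : In y h := by rw [body]; exact (H69.hul 2 ![v, x, y]).2.1 2
  have htch : ∀ s ∈ Q, ∀ z, In z h → ip s.1 z = s.2 → s ∈ touch Q h := by
    intro s hs z hz e
    exact Finset.mem_filter.2 ⟨hs, le_antisymm (hfit s hs) (e ▸ hz s.1)⟩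
  have hti : i ∈ touch Q h := htch i iQ v hv vij.on₁
  have htj : j ∈ touch Q h := htch j jQ v hv vij.on₂
  have htq : q ∈ touch Q h := htch q qQ x hx xq
  have htr : r ∈ touch Q h := htch r rQ y hy yr
  have htouch : ∀ s ∈ touch Q h, s = i ∨ s = j ∨ s = q ∨ s = r := by
    intro s hs
    rw [body, (hmix.2.2 2 ![v, x, y] (by
      intro k; fin_cases k
      · exact vC
      · exact xC
      · exact yC)).2] at hs
    obtain ⟨hsQ, k, hk⟩ := hs
    fin_cases k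
    · rcases V1 i j v vij s hsQ hk with h | h
      · exact Or.inl h
      · exact Or.inr (Or.inl h)
    · by_contra hcon
      push Not at hcon
      exact (xs s hsQ hcon.2.2.1).ne hk
    · by_contra hcon
      push Not at hcon
      exact (ys s hsQ hcon.2.2.2).ne hk
  -- the segments from `v`
  have seg : ∀ (z : ℂ) (t t' : HP), z ∈ Cl Q → In z h → t ∈ Q → t' ∈ touch Q h → i ≠ t → j ≠ t →
      ip t.1 z = t.2 → ip t'.1 v < t'.2 → ip t'.1 z < t'.2 →
      ∃ g, Fits P (mb g h) ∧ mv g i ∈ P ∧ mv g j ∈ P ∧ mv g t ∈ P := by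
    intro z t t' zC hz htQ ht' hit hjt e h1 h2
    obtain ⟨u1, u2, u3, u4, u5, u6⟩ := H69.hul 1 ![v, z]
    have hsub' : Sublin (hf ![v, z]) := u1
    have hcl : ∀ k, ![v, z] k ∈ Cl Q := by
      intro k; fin_cases k
      · exact vC
      · exact zC
    obtain ⟨hfit', htou'⟩ := hmix.2.2 1 ![v, z] hcl
    have hle : ∀ w, hf ![v, z] w ≤ h w := by
      apply u4
      intro k; fin_cases k
      · exact hv
      · exact hz
    have hlt : lam (hf ![v, z]) < lam h := by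
      by_contra hcon
      push Not at hcon
      have e1 := ((H69.lamS.2.1 _ h hsub' hsub hle).2 hcon)
      have e2 : h t'.1 = t'.2 := (Finset.mem_filter.1 ht').2
      have e3 : hf ![v, z] t'.1 < t'.2 := by
        rw [u6]
        intro k; fin_cases k
        · exact h1
        · exact h2
      rw [e1, e2] at e3
      exact lt_irrefl _ e3
    have hsubset : ({i, j, t} : Finset HP) ⊆ touch Q (hf ![v, z]) ∩ touch Q h := by
      intro s hs
      simp only [Finset.mem_insert, Finset.mem_singleton] at hs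
      rcases hs with rfl | rfl | rfl
      · exact Finset.mem_inter.2 ⟨(htou' _).2 ⟨iQ, 0, vij.on₁⟩, hti⟩
      · exact Finset.mem_inter.2 ⟨(htou' _).2 ⟨jQ, 0, vij.on₂⟩, htj⟩
      · exact Finset.mem_inter.2 ⟨(htou' _).2 ⟨htQ, 1, e⟩, htch _ htQ z hz e⟩
    have hcard : ({i, j, t} : Finset HP).card = 3 :=
      Finset.card_eq_three.2 ⟨i, j, t, n1, hit, hjt, rfl⟩
    obtain ⟨g, -, k2, k3⟩ := hlcx Q P L env (hf ![v, z]) h hsub' hsub hfit' hfit (hL ▸ hlt) hL.le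
      (hcard ▸ Finset.card_le_card hsubset) (Or.inl ⟨v, ⟨i, j, vij⟩, u2 0, hv⟩)
    exact ⟨g, k2, k3 i (hsubset (by simp)), k3 j (hsubset (by simp)), k3 t (hsubset (by simp))⟩
  obtain ⟨g, gfit, gi, gj, gq⟩ := seg x q r xC hx qQ htr n2 n4 xq hvr hxr
  obtain ⟨g', gfit', gi', gj', gr'⟩ := seg y r q yC hy rQ htq n3 n5 yr hvq hyq
  have gne : g ≠ g' := by
    rintro rfl
    refine hun ⟨g, gfit, ?_⟩
    intro s hs
    rcases htouch s hs with rfl | rfl | rfl | rfl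
    · exact gi
    · exact gj
    · exact gq
    · exact gr'
  -- sliding
  obtain ⟨a, b, v', aQ, bQ, ab, qa, qb, ra, rb, ga, gb, ga', gb', v'C, hv'a, hlt⟩ :
      ∃ a b : HP, ∃ v' : ℂ, a ∈ Q ∧ b ∈ Q ∧ a ≠ b ∧ q ≠ a ∧ q ≠ b ∧ r ≠ a ∧ r ≠ b ∧
      mv g a ∈ P ∧ mv g b ∈ P ∧ mv g' a ∈ P ∧ mv g' b ∈ P ∧ v' ∈ Cl Q ∧ ip a.1 v' = a.2 ∧
      ‖x - v'‖ + ‖v' - y‖ < ‖x - v‖ + ‖v - y‖ := by
    have vji : VxOf Q j i v := ⟨vij.cl, vij.mem₂, vij.mem₁, vij.ne.symm, vij.on₂, vij.on₁⟩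
    obtain ⟨s1, s2⟩ := hslx Q env.pg i j v vij x xC y yC xv yv
    obtain ⟨s3, s4⟩ := hslx Q env.pg j i v vji x xC y yC xv yv
    rcases s1 with s1 | s1
    · obtain ⟨w', w'C, -, w1, w2⟩ := s2 s1
      exact ⟨i, j, w', iQ, jQ, n1, n2.symm, n4.symm, n3.symm, n5.symm, gi, gj, gi', gj', w'C,
        w1, w2⟩
    · obtain ⟨w', w'C, -, w1, w2⟩ := s4 s1
      exact ⟨j, i, w', jQ, iQ, n1.symm, n4.symm, n2.symm, n5.symm, n3.symm, gj, gi, gj', gi',
        w'C, w1, w2⟩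
  -- the shorter body
  have hlam : lam (hf ![v', x, y]) < L := by
    rw [← hL, body, hp3, hp3]
    have e1 : ‖v' - x‖ = ‖x - v'‖ := norm_sub_rev _ _
    have e2 : ‖y - v'‖ = ‖v' - y‖ := norm_sub_rev _ _
    have e3 : ‖v - x‖ = ‖x - v‖ := norm_sub_rev _ _
    have e4 : ‖y - v‖ = ‖v - y‖ := norm_sub_rev _ _
    rw [e1, e2, e3, e4]
    linarith
  have hsub' : Sublin (hf ![v', x, y]) := (H69.hul 2 ![v', x, y]).1
  obtain ⟨hfit', htou'⟩ := hmix.2.2 2 ![v', x, y] (by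
    intro k
    fin_cases k
    · exact v'C
    · exact xC
    · exact yC)
  have hST : ({a, q, r} : Finset HP) ⊆ touch Q (hf ![v', x, y]) := by
    intro t ht
    rw [htou']
    simp only [Finset.mem_insert, Finset.mem_singleton] at ht
    rcases ht with rfl | rfl | rfl
    · exact ⟨aQ, 0, hv'a⟩
    · exact ⟨qQ, 1, xq⟩
    · exact ⟨rQ, 2, yr⟩
  have hSQ : ({a, q, r} : Finset HP) ⊆ Q := by
    intro t ht
    simp only [Finset.mem_insert, Finset.mem_singleton] at ht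
    rcases ht with rfl | rfl | rfl
    · exact aQ
    · exact qQ
    · exact rQ
  have hcard : ({a, q, r} : Finset HP).card = 3 :=
    Finset.card_eq_three.2 ⟨a, q, r, qa.symm, ra.symm, n6, rfl⟩
  have hLt : Lt Q {a, q, r} L := ⟨_, hsub', hfit', hST, hlam⟩
  by_cases hgh : Ghost Q {a, q, r}
  · obtain ⟨hac, -, -, -, -, -, -, -, hmn⟩ := hghx Q env.pg _ hgh
    have hellL : ell {a, q, r} < L := lt_of_le_of_lt (hmn _ hsub' hfit' hST) hlam
    have hpos : 0 < gc P (ell {a, q, r}) := by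
      rw [hgc _ hellL]
      unfold gc
      apply Finset.card_pos.2
      exact ⟨{a, q, r}, Finset.mem_filter.2 ⟨Finset.mem_powersetCard.2 ⟨hSQ, hcard⟩, hgh, rfl⟩⟩
    unfold gc at hpos
    obtain ⟨S', hS'⟩ := Finset.card_pos.1 hpos
    obtain ⟨hS1, hS2, hS3⟩ := Finset.mem_filter.1 hS'
    obtain ⟨c, d, e, cd, ce, de, rfl⟩ := Finset.card_eq_three.1 hS2.2.1
    have hT : Tri P c d e :=
      ⟨hS2.1 (by simp), hS2.1 (by simp), hS2.1 (by simp), cd, ce, de⟩
    rw [(Pool.Agent.AEU.H40.ell H72.act).1 c d e cd ce de,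
      (Pool.Agent.AEU.H40.ell H72.act).1 a q r qa.symm ra.symm n6] at hS3
    exact flip_falseX hunx hQu hP aQ bQ qQ rQ ab n6 qa qb ra rb ga gb gq ga' gb' gr' gne
      hac hT hS3
  · obtain ⟨g'', hg'', -⟩ := hplc Q P L env {a, q, r} hSQ hcard hLt hgh
    exact gne (hk4x Q P hQu hP.gen.pg hP.gen.g1 g g' g'' a b q r aQ bQ qQ rQ
      ⟨ab, qa.symm, ra.symm, qb.symm, rb.symm, n6⟩ ga gb gq ga' gb' gr'
      (hg'' a (by simp)) (hg'' q (by simp)) (hg'' r (by simp))).1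

end Pool.Agent.XQ
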